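import Pool.Agent.Helper86.FS.StartGoals
import Pool.Agent.Helper86.FS.StartEqv

/-! Packet FS-START-FAM of helper86: the family of products of disjoint transpositions. -/

namespace Pool.Agent.Helper39.FS

open Equiv Pool.Agent.Helper3.AK Pool.Agent.Helper86.FS

/-- the partner -/
def fl (x : ℕ) : ℕ := if x % 2 = 0 then x + 1 else x - 1

theorem fl_div (x : ℕ) : fl x / 2 = x / 2 := by
  unfold fl
  split <;> omega

theorem fl_fl (x : ℕ) : fl (fl x) = x := by
  unfold fl
  split <;> split <;> omega

/-- the transposition number `t` -/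
def sw (n t : ℕ) : Perm (Fin n) :=
  if h : 2 * t + 1 < n then swap ⟨2 * t, by omega⟩ ⟨2 * t + 1, h⟩ else 1

theorem sw_val {n t : ℕ} (h : 2 * t + 1 < n) (x : Fin n) :
    (sw n t x).val = if x.val / 2 = t then fl x.val else x.val := by
  unfold sw fl
  rw [dif_pos h]
  by_cases h1 : x.val = 2 * t
  · have e : x = ⟨2 * t, by omega⟩ := Fin.ext h1
    rw [e, swap_apply_left]
    simp
  · by_cases h2 : x.val = 2 * t + 1
    · have e : x = ⟨2 * t + 1, h⟩ := Fin.ext h2
      rw [e, swap_apply_right]
      simp only
      rw [if_pos (by omega), if_neg (by omega)]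
      omega
    · rw [swap_apply_of_ne_of_ne (fun h3 => h1 (congrArg Fin.val h3))
        (fun h3 => h2 (congrArg Fin.val h3)), if_neg (by omega)]

theorem prod_val {n : ℕ} : ∀ l : List ℕ, l.Nodup → (∀ t ∈ l, 2 * t + 1 < n) → ∀ x : Fin n,
    ((l.map (sw n)).prod x).val = if x.val / 2 ∈ l then fl x.val else x.val := by
  intro l
  induction l with
  | nil => intro _ _ x; simp
  | cons t l ih =>
    intro hd hl x
    rw [List.nodup_cons] at hd
    rw [List.map_cons, List.prod_cons, Perm.mul_apply, sw_val (hl t (by simp)),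
      ih hd.2 (fun s hs => hl s (by simp [hs])) x]
    by_cases h1 : x.val / 2 ∈ l
    · rw [if_pos h1, if_pos (List.mem_cons_of_mem _ h1), fl_div, if_neg]
      intro h2
      rw [h2] at h1
      exact hd.1 h1
    · rw [if_neg h1]
      by_cases h2 : x.val / 2 = t
      · rw [if_pos h2, if_pos (by rw [h2]; simp)]
      · rw [if_neg h2, if_neg]
        intro h3
        rcases List.mem_cons.1 h3 with h4 | h4
        · exact h2 h4
        · exact h1 h4

theorem sign_prod {n : ℕ} : ∀ l : List ℕ, (∀ t ∈ l, 2 * t + 1 < n) →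
    Perm.sign (l.map (sw n)).prod = (-1) ^ l.length := by
  intro l
  induction l with
  | nil => intro _; simp
  | cons t l ih =>
    intro hl
    rw [List.map_cons, List.prod_cons, map_mul, ih (fun s hs => hl s (by simp [hs])),
      List.length_cons, pow_succ, mul_comm]
    congr 1
    unfold sw
    rw [dif_pos (hl t (by simp)), Perm.sign_swap]
    intro h
    have := congrArg Fin.val h
    simp at this

/-- the list of the transpositions of the block `i` -/
def blk (M i : ℕ) : List ℕ := (List.range M).map fun j => M * i + j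

theorem mem_blk {M i t : ℕ} : t ∈ blk M i ↔ M * i ≤ t ∧ t < M * i + M := by
  unfold blk
  rw [List.mem_map]
  constructor
  · rintro ⟨j, hj, rfl⟩
    rw [List.mem_range] at hj
    omega
  · rintro ⟨h1, h2⟩
    exact ⟨t - M * i, List.mem_range.2 (by omega), by omega⟩

theorem nodup_blk (M i : ℕ) : (blk M i).Nodup := by
  unfold blk
  refine List.Nodup.map ?_ List.nodup_range
  intro a b h
  simpa using h

theorem blk_lt {n M i t : ℕ} (hi : i < n / (2 * M)) (ht : t < M * i + M) : 2 * t + 1 < n := by
  have h1 := Nat.div_mul_le_self n (2 * M)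
  have h2 : (i + 1) * (2 * M) ≤ n / (2 * M) * (2 * M) := Nat.mul_le_mul_right _ hi
  have h3 : (i + 1) * (2 * M) = 2 * (M * i + M) := by ring
  omega

theorem blk_disj {M i i' t : ℕ} (h : i ≠ i') (h1 : t ∈ blk M i) : t ∉ blk M i' := by
  rw [mem_blk] at *
  rintro ⟨h3, h4⟩
  rcases Nat.lt_or_gt_of_ne h with h5 | h5
  · have : M * (i + 1) ≤ M * i' := Nat.mul_le_mul_left _ h5
    rw [Nat.mul_add] at this
    omega
  · have : M * (i' + 1) ≤ M * i := Nat.mul_le_mul_left _ h5
    rw [Nat.mul_add] at this
    omega

/-- Packet FS-START-FAM. -/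
theorem fam : FAMStmt := by
  intro n M hM hM0
  have hlt : ∀ i : Fin (n / (2 * M)), ∀ t ∈ blk M i, 2 * t + 1 < n := fun i t ht =>
    blk_lt i.2 (mem_blk.1 ht).2
  let T : Fin (n / (2 * M)) → Perm (Fin n) := fun i => ((blk M i).map (sw n)).prod
  have hT : ∀ (i : Fin (n / (2 * M))) (x : Fin n), (T i x).val =
      if x.val / 2 ∈ blk M i then fl x.val else x.val := fun i x =>
    prod_val _ (nodup_blk M i) (hlt i) x
  have hinv : ∀ i, (T i)⁻¹ = T i := by
    intro i
    rw [inv_eq_iff_mul_eq_one]
    ext x
    rw [Perm.mul_apply, hT, hT, Perm.one_apply]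
    by_cases h : x.val / 2 ∈ blk M i
    · rw [if_pos h, fl_div, if_pos h, fl_fl]
    · rw [if_neg h, if_neg h]
  have hA : ∀ i, T i ∈ alternatingGroup (Fin n) := by
    intro i
    rw [Perm.mem_alternatingGroup]
    have h := sign_prod (n := n) (blk M i) (hlt i)
    have hl : (blk M i).length = M := by simp [blk]
    rw [hl, hM.neg_one_pow] at h
    exact h
  refine ⟨fun i => ⟨T i, hA i⟩, ?_⟩
  intro i i' hii
  have hii' : i.val ≠ i'.val := fun h => hii (Fin.ext h)
  -- the transposition number of `j`
  let tt : Fin (2 * M) → ℕ := fun j => if j.val < M then M * i + j else M * i' + (j - M)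
  have htt : ∀ j, tt j ∈ blk M i ∨ tt j ∈ blk M i' := by
    intro j
    simp only [tt]
    have := j.2
    split
    · left; rw [mem_blk]; omega
    · right; rw [mem_blk]; omega
  have httn : ∀ j, 2 * tt j + 1 < n := by
    intro j
    rcases htt j with h | h
    · exact hlt i _ h
    · exact hlt i' _ h
  have htinj : Function.Injective tt := by
    intro j j' h
    simp only [tt] at h
    have h1 := j.2
    have h2 := j'.2
    apply Fin.ext
    by_cases h3 : j.val < M
    · by_cases h4 : j'.val < M
      · rw [if_pos h3, if_pos h4] at h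
        omega
      · rw [if_pos h3, if_neg h4] at h
        exfalso
        have h5 : M * i + j.val ∈ blk M i := by rw [mem_blk]; omega
        have h6 : M * i + j.val ∈ blk M i' := by rw [h, mem_blk]; omega
        exact blk_disj hii' h5 h6
    · by_cases h4 : j'.val < M
      · rw [if_neg h3, if_pos h4] at h
        exfalso
        have h5 : M * i + j'.val ∈ blk M i := by rw [mem_blk]; omega
        have h6 : M * i + j'.val ∈ blk M i' := by rw [← h, mem_blk]; omega
        exact blk_disj hii' h5 h6
      · rw [if_neg h3, if_neg h4] at h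
        omega
  let c : Pts n (2 * M) := ⟨fun p => ⟨2 * tt p.1 + (if p.2 then 1 else 0), by
      have := httn p.1
      split <;> omega⟩, by
      rintro ⟨j, s⟩ ⟨j', s'⟩ h
      have h1 := congrArg Fin.val h
      simp only at h1
      have h2 : tt j = tt j' := by
        split at h1 <;> split at h1 <;> omega
      have h3 : j = j' := htinj h2
      subst h3
      congr 1
      cases s <;> cases s' <;> simp_all⟩
  have hcv : ∀ j s, (c (j, s)).val = 2 * tt j + (if s then 1 else 0) := fun j s => rfl
  have hact : ∀ x : Fin n, ((T i' * (T i)⁻¹) x).val =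
      if x.val / 2 ∈ blk M i ∨ x.val / 2 ∈ blk M i' then fl x.val else x.val := by
    intro x
    rw [hinv, Perm.mul_apply, hT, hT]
    by_cases h : x.val / 2 ∈ blk M i
    · rw [if_pos h, fl_div, if_neg (blk_disj hii' h), if_pos (Or.inl h)]
    · rw [if_neg h]
      by_cases h' : x.val / 2 ∈ blk M i'
      · rw [if_pos h', if_pos (Or.inr h')]
      · rw [if_neg h', if_neg (by tauto)]
  refine ⟨c, ?_, ?_⟩
  · intro j s
    apply Fin.ext
    have h1 : (((⟨T i', hA i'⟩ * (⟨T i, hA i⟩)⁻¹ : Alt n) : Perm (Fin n)) (c (j, s))).val =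
        ((T i' * (T i)⁻¹) (c (j, s))).val := rfl
    have h2 : (c (j, s)).val / 2 = tt j := by
      rw [hcv]
      split <;> omega
    rw [h1, hact, h2, if_pos (htt j), hcv, hcv]
    unfold fl
    cases s <;> simp
  · intro v hv
    apply Fin.ext
    have h1 : (((⟨T i', hA i'⟩ * (⟨T i, hA i⟩)⁻¹ : Alt n) : Perm (Fin n)) v).val =
        ((T i' * (T i)⁻¹) v).val := rfl
    rw [h1, hact, if_neg]
    intro h2
    refine hv ?_
    obtain ⟨j, hj⟩ : ∃ j, tt j = v.val / 2 := by
      rcases h2 with h3 | h3
      · rw [mem_blk] at h3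
        refine ⟨⟨v.val / 2 - M * i, by omega⟩, ?_⟩
        simp only [tt]
        rw [if_pos (by omega)]
        omega
      · rw [mem_blk] at h3
        refine ⟨⟨v.val / 2 - M * i' + M, by omega⟩, ?_⟩
        simp only [tt]
        rw [if_neg (by omega)]
        omega
    refine ⟨(j, decide (v.val % 2 = 1)), ?_⟩
    apply Fin.ext
    rw [hcv, hj]
    by_cases h4 : v.val % 2 = 1
    · simp [h4]; omega
    · simp [h4]; omega

end Pool.Agent.Helper39.FS
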